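import Pool.Agent.T9h54.LZ.Spec
import Pool.Agent.H38R2.CG.PV

/-! Few characters are linearly independent on an interval -/

set_option autoImplicit false

namespace Pool.Agent.T9h75.LZ

open Finset Filter
open Pool.Agent.T9h54.LZ

theorem growth (C D δ : ℝ) (q : ℕ) (hδ : 0 < δ) (hD : 0 < D) : ∃ K : ℕ, ∀ P : ℕ, K < P →
    3 + C * √(q : ℝ) * ((P : ℝ) * ((Real.log q + Real.log P) * (P : ℝ) ^ (-δ))) < D * P := by
  have h1 : Tendsto (fun x : ℝ => 3 / x) atTop (nhds 0) := tendsto_const_nhds.div_atTop tendsto_id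
  have h2 : Tendsto (fun x : ℝ => x ^ (-δ)) atTop (nhds 0) := tendsto_rpow_neg_atTop hδ
  have h3 : Tendsto (fun x : ℝ => Real.log x * x ^ (-δ)) atTop (nhds 0) := by
    have h := (isLittleO_log_rpow_atTop hδ).tendsto_div_nhds_zero
    refine h.congr' ?_
    filter_upwards [eventually_gt_atTop 0] with x hx
    rw [Real.rpow_neg hx.le, div_eq_mul_inv]
  have h4 : Tendsto (fun x : ℝ => 3 / x + C * √(q : ℝ) *
      (Real.log q * x ^ (-δ) + Real.log x * x ^ (-δ))) atTop (nhds 0) := by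
    have := h1.add (((h2.const_mul (Real.log q)).add h3).const_mul (C * √(q : ℝ)))
    simpa using this
  have h5 := h4.eventually (gt_mem_nhds hD)
  obtain ⟨x₀, hx₀⟩ := eventually_atTop.1 h5
  refine ⟨max ⌈x₀⌉₊ 1, fun P hP => ?_⟩
  have hP1 : x₀ ≤ P := (Nat.le_ceil x₀).trans (by
    exact_mod_cast (le_max_left _ _).trans hP.le)
  have hP0 : (0 : ℝ) < P := by
    have : 1 ≤ P := (le_max_right _ _).trans hP.le
    exact_mod_cast this
  have h6 := hx₀ P hP1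
  have h7 := mul_lt_mul_of_pos_right h6 hP0
  have e : (3 / (P : ℝ) + C * √(q : ℝ) *
      (Real.log q * (P : ℝ) ^ (-δ) + Real.log P * (P : ℝ) ^ (-δ))) * P =
      3 + C * √(q : ℝ) * ((P : ℝ) * ((Real.log q + Real.log P) * (P : ℝ) ^ (-δ))) := by
    field_simp
    try ring
  rw [e] at h7
  exact h7

/-- many integers prime to `q P` in an interval -/
theorem count (q P : ℕ) (hq : 0 < q) (hP : P.Prime) (hqP : q < P) (α β : ℝ) (hα : 0 ≤ α)
    (hβ : β ≤ 1) : (β - α) * P - 3 ≤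
    (((Ioc ⌊α * ((q * P : ℕ) : ℝ)⌋₊ (⌈β * ((q * P : ℕ) : ℝ)⌉₊ - 1)).filter
      (fun j => j.Coprime (q * P))).card : ℝ) := by
  have hP0 : (0 : ℝ) < P := by exact_mod_cast hP.pos
  have hq0 : (1 : ℝ) ≤ q := by exact_mod_cast hq
  set u := ⌊α * (P : ℝ)⌋₊ with hu
  set v := ⌈β * (P : ℝ)⌉₊ - 2 with hv
  have hm : ∀ m ∈ Ioc u v, α * P < m ∧ (m : ℝ) + 1 < β * P := by
    intro m hm
    rw [mem_Ioc] at hm
    refine ⟨(Nat.floor_lt (by positivity)).1 hm.1, ?_⟩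
    have : m + 1 < ⌈β * (P : ℝ)⌉₊ := by omega
    have h := Nat.lt_ceil.1 this
    push_cast at h
    exact h
  have hcard : β * P - 2 - α * P ≤ ((Ioc u v).card : ℝ) := by
    rw [Nat.card_Ioc]
    have h1 : (u : ℝ) ≤ α * P := Nat.floor_le (by positivity)
    have h2 : β * P ≤ (⌈β * (P : ℝ)⌉₊ : ℝ) := Nat.le_ceil _
    have h3 : (⌈β * (P : ℝ)⌉₊ : ℝ) - 2 ≤ (v : ℝ) := by
      have : ⌈β * (P : ℝ)⌉₊ ≤ v + 2 := by omega
      have : ((⌈β * (P : ℝ)⌉₊ : ℕ) : ℝ) ≤ ((v + 2 : ℕ) : ℝ) := by exact_mod_cast this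
      push_cast at this
      linarith
    have h4 : (v : ℝ) - u ≤ ((v - u : ℕ) : ℝ) := by
      have : v ≤ (v - u) + u := by omega
      have : (v : ℝ) ≤ (((v - u) + u : ℕ) : ℝ) := by exact_mod_cast this
      push_cast at this
      linarith
    linarith
  have hbad : ((Ioc u v).filter (fun m => P ∣ 1 + q * m)).card ≤ 1 := by
    rw [card_le_one]
    have key : ∀ a b : ℕ, a ∈ (Ioc u v).filter (fun m => P ∣ 1 + q * m) →
        b ∈ (Ioc u v).filter (fun m => P ∣ 1 + q * m) → a ≤ b → a = b := by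
      intro a b ha hb hab
      rw [mem_filter] at ha hb
      have h1 : P ∣ q * (b - a) := by
        have := Nat.dvd_sub hb.2 ha.2
        rwa [show 1 + q * b - (1 + q * a) = q * (b - a) by
          rw [Nat.mul_sub]; omega] at this
      rcases hP.dvd_mul.1 h1 with h | h
      · exact absurd (Nat.le_of_dvd hq h) (by omega)
      · have h2 : b - a < P := by
          have h3 := (hm b hb.1).2
          have h4 : (b : ℝ) < P := by nlinarith
          have h5 : b < P := by exact_mod_cast h4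
          omega
        have := Nat.eq_zero_of_dvd_of_lt h h2
        omega
    intro a ha b hb
    rcases le_total a b with h | h
    · exact key a b ha hb h
    · exact (key b a hb ha h).symm
  have hgood : (β - α) * P - 3 ≤ (((Ioc u v).filter (fun m => ¬ P ∣ 1 + q * m)).card : ℝ) := by
    have h1 := card_filter_add_card_filter_not (s := Ioc u v) (fun m => P ∣ 1 + q * m)
    have h2 : (((Ioc u v).filter (fun m => P ∣ 1 + q * m)).card : ℝ) +
        (((Ioc u v).filter (fun m => ¬ P ∣ 1 + q * m)).card : ℝ) = ((Ioc u v).card : ℝ) := by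
      exact_mod_cast h1
    have h3 : (((Ioc u v).filter (fun m => P ∣ 1 + q * m)).card : ℝ) ≤ 1 := by
      exact_mod_cast hbad
    nlinarith
  refine hgood.trans ?_
  have hinj : ((Ioc u v).filter (fun m => ¬ P ∣ 1 + q * m)).card ≤
      ((Ioc ⌊α * ((q * P : ℕ) : ℝ)⌋₊ (⌈β * ((q * P : ℕ) : ℝ)⌉₊ - 1)).filter
        (fun j => j.Coprime (q * P))).card := by
    refine card_le_card_of_injOn (fun m => 1 + q * m) ?_ ?_
    · intro m hm'
      have hm'' := (mem_filter.1 (mem_coe.1 hm'))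
      obtain ⟨h1, h2⟩ := hm m hm''.1
      refine mem_coe.2 (mem_filter.2 ⟨mem_Ioc.2 ⟨?_, ?_⟩, ?_⟩)
      · rw [Nat.floor_lt (by positivity)]
        push_cast
        nlinarith
      · have h3 : ((1 + q * m : ℕ) : ℝ) < β * ((q * P : ℕ) : ℝ) := by
          push_cast
          nlinarith
        have := Nat.lt_ceil.2 h3
        show 1 + q * m ≤ _
        omega
      · refine Nat.Coprime.mul_right ?_ ?_
        · show Nat.Coprime (1 + q * m) q
          rw [Nat.coprime_add_mul_left_left]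
          exact Nat.coprime_one_left q
        · rw [Nat.coprime_comm]
          exact (hP.coprime_iff_not_dvd).2 hm''.2
    · intro a _ b _ h
      have h' : 1 + q * a = 1 + q * b := h
      have : q * a = q * b := by omega
      exact Nat.eq_of_mul_eq_mul_left hq this
  exact_mod_cast hinj

theorem core (C : ℝ) (hC : 0 < C)
    (hPV : ∀ (q : ℕ) (χ : DirichletCharacter ℂ q), 2 ≤ q → χ ≠ 1 → ∀ a b : ℕ,
      ‖∑ n ∈ Ioc a b, χ (n : ZMod q)‖ ≤ C * √(q : ℝ) * Real.log q)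
    (Q : ℕ) (hQ2 : 2 ≤ Q) (α β : ℝ) (hα : 0 ≤ α) (B : Finset (DirichletCharacter ℂ Q))
    (g : DirichletCharacter ℂ Q → ℂ)
    (hg : ∀ j : ℕ, j.Coprime Q → α < (j : ℝ) / (Q : ℝ) → (j : ℝ) / (Q : ℝ) < β →
      ∑ χ ∈ B, g χ * χ (j : ZMod Q) = 0)
    (hbig : (B.card : ℝ) * (C * √(Q : ℝ) * Real.log Q) <
      (((Ioc ⌊α * (Q : ℝ)⌋₊ (⌈β * (Q : ℝ)⌉₊ - 1)).filter (fun j => j.Coprime Q)).card : ℝ)) :
    ∀ χ ∈ B, g χ = 0 := by
  classical
  by_contra hcon
  push Not at hcon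
  obtain ⟨χ₁, hχ₁, hne⟩ := hcon
  obtain ⟨χ₀, hχ₀, hmax⟩ := exists_max_image B (fun χ => ‖g χ‖) ⟨χ₁, hχ₁⟩
  have hpos : 0 < ‖g χ₀‖ := (norm_pos_iff.2 hne).trans_le (hmax χ₁ hχ₁)
  have hQ0 : (0 : ℝ) < Q := by
    have : 0 < Q := by omega
    exact_mod_cast this
  set J := Ioc ⌊α * (Q : ℝ)⌋₊ (⌈β * (Q : ℝ)⌉₊ - 1) with hJ
  have hS : ∀ j ∈ J, ∑ χ ∈ B, g χ * χ (j : ZMod Q) = 0 := by
    intro j hj
    by_cases hc : j.Coprime Q
    · rw [hJ, mem_Ioc] at hj
      have h1 : α * Q < j := (Nat.floor_lt (by positivity)).1 hj.1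
      have h2 : (j : ℝ) < β * Q := Nat.lt_ceil.1 (by omega)
      refine hg j hc ?_ ?_
      · rwa [lt_div_iff₀ hQ0]
      · rwa [div_lt_iff₀ hQ0]
    · refine sum_eq_zero fun χ _ => ?_
      rw [χ.map_nonunit (by rwa [ZMod.isUnit_iff_coprime]), mul_zero]
  have h0 : ∑ χ ∈ B, g χ * ∑ j ∈ J, (χ * χ₀⁻¹) (j : ZMod Q) = 0 := by
    have : ∑ j ∈ J, (∑ χ ∈ B, g χ * χ (j : ZMod Q)) * χ₀⁻¹ (j : ZMod Q) = 0 :=
      sum_eq_zero fun j hj => by rw [hS j hj, zero_mul]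
    rw [← this]
    simp only [mul_sum, sum_mul]
    rw [sum_comm]
    refine sum_congr rfl fun j _ => sum_congr rfl fun χ _ => ?_
    rw [MulChar.mul_apply, mul_assoc]
  rw [← add_sum_erase B _ hχ₀] at h0
  have h1 : ∑ j ∈ J, (χ₀ * χ₀⁻¹) (j : ZMod Q) =
      ((J.filter (fun j => j.Coprime Q)).card : ℂ) := by
    rw [mul_inv_cancel, card_filter]
    push_cast
    refine sum_congr rfl fun j _ => ?_
    by_cases hc : j.Coprime Q
    · rw [if_pos hc, MulChar.one_apply ((ZMod.isUnit_iff_coprime j Q).2 hc)]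
    · rw [if_neg hc, MulChar.map_nonunit _ (by rwa [ZMod.isUnit_iff_coprime])]
  rw [h1] at h0
  have h2 : ‖g χ₀‖ * ((J.filter (fun j => j.Coprime Q)).card : ℝ) ≤
      (B.card : ℝ) * (‖g χ₀‖ * (C * √(Q : ℝ) * Real.log Q)) := by
    have e : g χ₀ * ((J.filter (fun j => j.Coprime Q)).card : ℂ) =
        - ∑ χ ∈ B.erase χ₀, g χ * ∑ j ∈ J, (χ * χ₀⁻¹) (j : ZMod Q) := by
      linear_combination h0
    have e2 := congrArg norm e
    rw [norm_mul, Complex.norm_natCast, norm_neg] at e2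
    rw [e2]
    refine (norm_sum_le _ _).trans ?_
    have e3 : ∀ χ ∈ B.erase χ₀, ‖g χ * ∑ j ∈ J, (χ * χ₀⁻¹) (j : ZMod Q)‖ ≤
        ‖g χ₀‖ * (C * √(Q : ℝ) * Real.log Q) := by
      intro χ hχ
      rw [norm_mul]
      rw [mem_erase] at hχ
      refine mul_le_mul (hmax χ hχ.2) (hPV Q (χ * χ₀⁻¹) hQ2 ?_ _ _) (norm_nonneg _)
        (norm_nonneg _)
      intro h
      exact hχ.1 (mul_inv_eq_one.1 h)
    refine (sum_le_sum e3).trans ?_
    rw [sum_const, nsmul_eq_mul]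
    have hlog : 0 ≤ Real.log Q := Real.log_nonneg (by exact_mod_cast (by omega : 1 ≤ Q))
    refine mul_le_mul_of_nonneg_right ?_ (by positivity)
    exact_mod_cast card_le_card (erase_subset _ _)
  have h3 : ((J.filter (fun j => j.Coprime Q)).card : ℝ) ≤
      (B.card : ℝ) * (C * √(Q : ℝ) * Real.log Q) := by
    have : ‖g χ₀‖ * ((J.filter (fun j => j.Coprime Q)).card : ℝ) ≤
        ‖g χ₀‖ * ((B.card : ℝ) * (C * √(Q : ℝ) * Real.log Q)) := by linarith
    exact le_of_mul_le_mul_left this hpos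
  linarith

theorem g : S_G := by
  intro q _ α β hα hαβ hβ δ hδ
  obtain ⟨C, hC, hPV⟩ := Pool.Agent.H38R2.CG.T_PV
  obtain ⟨K, hK⟩ := growth C (β - α) δ q hδ (by linarith)
  refine ⟨max K (max q 1), fun P hP hKP B hB g hg => ?_⟩
  have hq : 0 < q := Nat.pos_of_ne_zero (NeZero.ne q)
  have hqP : q < P := (le_max_left _ _).trans_lt ((le_max_right _ _).trans_lt hKP)
  have hK' := hK P ((le_max_left _ _).trans_lt hKP)
  have hN := count q P hq hP hqP α β hα hβ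
  have hQ2 : 2 ≤ q * P := by
    have := hP.two_le
    calc 2 ≤ 1 * P := by omega
      _ ≤ q * P := Nat.mul_le_mul_right _ hq
  refine core C hC hPV (q * P) hQ2 α β hα B g hg ?_
  refine lt_of_lt_of_le ?_ hN
  have hP0 : (0 : ℝ) < P := by exact_mod_cast hP.pos
  have hq0 : (0 : ℝ) < q := by exact_mod_cast hq
  have h4 : (B.card : ℝ) * (C * √((q * P : ℕ) : ℝ) * Real.log ((q * P : ℕ) : ℝ)) ≤
      C * √(q : ℝ) * ((P : ℝ) * ((Real.log q + Real.log P) * (P : ℝ) ^ (-δ))) := by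
    have e1 : √((q * P : ℕ) : ℝ) = √(q : ℝ) * (P : ℝ) ^ (1 / 2 : ℝ) := by
      rw [Nat.cast_mul, Real.sqrt_mul hq0.le, Real.sqrt_eq_rpow (P : ℝ)]
    have e2 : Real.log ((q * P : ℕ) : ℝ) = Real.log q + Real.log P := by
      rw [Nat.cast_mul, Real.log_mul hq0.ne' hP0.ne']
    have e3 : (P : ℝ) ^ (1 / 2 - δ) * (P : ℝ) ^ (1 / 2 : ℝ) = (P : ℝ) * (P : ℝ) ^ (-δ) := by
      rw [← Real.rpow_add hP0, show (1 / 2 - δ + 1 / 2 : ℝ) = 1 + -δ by ring,
        Real.rpow_add hP0, Real.rpow_one]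
    have hlog : 0 ≤ Real.log ((q * P : ℕ) : ℝ) :=
      Real.log_nonneg (by exact_mod_cast (by omega : 1 ≤ q * P))
    calc (B.card : ℝ) * (C * √((q * P : ℕ) : ℝ) * Real.log ((q * P : ℕ) : ℝ))
        ≤ (P : ℝ) ^ (1 / 2 - δ) * (C * √((q * P : ℕ) : ℝ) * Real.log ((q * P : ℕ) : ℝ)) :=
          mul_le_mul_of_nonneg_right hB (by positivity)
      _ = C * √(q : ℝ) * (((P : ℝ) ^ (1 / 2 - δ) * (P : ℝ) ^ (1 / 2 : ℝ)) *
          (Real.log q + Real.log P)) := by rw [e1, e2]; ring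
      _ = _ := by rw [e3]; ring
  linarith

end Pool.Agent.T9h75.LZ
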